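import Pool.Agent.H93.BL.Targets

namespace Pool.Agent.H34.BL.CD

open MeasureTheory Set Pool.Agent.H93.BL

lemma vtx_finite {ι : Type} [Finite ι] (P : Polygon ι) : {w : ℂ | P.Vtx w}.Finite := by
  have h : {w : ℂ | P.Vtx w} ⊆ Set.range P.p ∪ Set.range P.q := by
    rintro w ⟨i, h | h⟩
    · exact Or.inl ⟨i, h.symm⟩
    · exact Or.inr ⟨i, h.symm⟩
  exact ((Set.finite_range _).union (Set.finite_range _)).subset h

lemma dd_countable {ι : Type} [Finite ι] (P : Polygon ι) : P.DD.Countable := by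
  have hV : {w : ℂ | P.Vtx w}.Countable := (vtx_finite P).countable
  have hV' : Countable {w : ℂ | P.Vtx w} := hV.to_subtype
  have hsub : P.DD ⊆ Set.range (fun z : List ι × {w : ℂ | P.Vtx w} × {w : ℂ | P.Vtx w} =>
      (P.affL z.1 z.2.2.1 - z.2.1.1) / (‖P.affL z.1 z.2.2.1 - z.2.1.1‖ : ℂ)) := by
    rintro d ⟨l, w, w', hw, hw', -, rfl⟩
    exact ⟨(l, ⟨w, hw⟩, ⟨w', hw'⟩), rfl⟩
  exact (Set.countable_range _).mono hsub

lemma reflL_injective {ι : Type} (P : Polygon ι) (l : List ι) :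
    Function.Injective (P.reflL l) := by
  induction l with
  | nil => exact fun a b h => h
  | cons i l ih =>
    intro a b h
    exact ih (P.refl_injective i h)

lemma reflL_append {ι : Type} (P : Polygon ι) (l : List ι) (i : ι) (v : ℂ) :
    P.reflL (l ++ [i]) v = P.reflL l (P.refl i v) := by
  unfold Polygon.reflL
  rw [List.foldr_append]
  rfl

theorem cd : T_CD := by
  intro ι _ P
  refine ⟨?_, ?_, ?_⟩
  · have h : P.DDp = ⋃ l : List ι, P.reflL l ⁻¹' P.DD := by
      ext v
      simp [Polygon.DDp]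
    rw [h]
    exact Set.countable_iUnion fun l =>
      (dd_countable P).preimage_of_injOn (reflL_injective P l).injOn
  · intro v hv
    exact ⟨[], hv⟩
  · have h1 : ∀ (i : ι) (v : ℂ), P.refl i v ∈ P.DDp → v ∈ P.DDp := by
      rintro i v ⟨l, hl⟩
      exact ⟨l ++ [i], by rw [reflL_append]; exact hl⟩
    intro i v
    refine ⟨h1 i v, fun h => h1 i _ ?_⟩
    rw [P.refl_refl]
    exact h

end Pool.Agent.H34.BL.CD
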