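import Pool.Agent.H93.BL.Targets

namespace Pool.Agent.H34.BL.K2

open MeasureTheory Set Pool.Agent.H93.BL

theorem k2 : T_K2 := by
  intro ι P w ω j h0 hpos x hx
  have key : ∀ s : ℝ, ip (w + (ω : ℂ) * (Complex.I * (P.p j + (s : ℂ) * P.u j))) (P.n j)
      = ip (w + (ω : ℂ) * (Complex.I * P.p j)) (P.n j)
        + s * (ω * ip (Complex.I * P.u j) (P.n j)) := by
    intro s
    have e : w + (ω : ℂ) * (Complex.I * (P.p j + (s : ℂ) * P.u j))
        = (w + (ω : ℂ) * (Complex.I * P.p j)) + (s : ℂ) * ((ω : ℂ) * (Complex.I * P.u j)) := by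
      ring
    rw [e, ip_add_left, ip_smul_left, ip_smul_left]
  obtain ⟨x0, hx0, hp⟩ := hpos
  obtain ⟨s0, hs0, hs0l, rfl⟩ := (P.mem_openSegment_iff j x0).1 hx0
  obtain ⟨s, hs, hsl, rfl⟩ := (P.mem_openSegment_iff j x).1 hx
  have ha := h0 (P.p j + ((0 : ℝ) : ℂ) * P.u j)
    ((P.mem_segment_iff j _).2 ⟨0, le_refl _, (P.len_pos j).le, rfl⟩)
  have hb := h0 (P.p j + ((P.len j : ℝ) : ℂ) * P.u j)
    ((P.mem_segment_iff j _).2 ⟨P.len j, (P.len_pos j).le, le_refl _, rfl⟩)
  rw [key] at ha hb hp ⊢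
  generalize ip (w + (ω : ℂ) * (Complex.I * P.p j)) (P.n j) = A at ha hb hp ⊢
  generalize ω * ip (Complex.I * P.u j) (P.n j) = B at ha hb hp ⊢
  have hA : 0 ≤ A := by linarith
  rcases le_or_gt 0 B with hB | hB
  · by_contra hcon
    push Not at hcon
    have h1 : 0 ≤ s * B := mul_nonneg hs.le hB
    have hA0 : A = 0 := le_antisymm (by linarith) hA
    have hsB : s * B = 0 := le_antisymm (by linarith) h1
    have hB0 : B = 0 := by
      rcases mul_eq_zero.1 hsB with h | h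
      · exact absurd h hs.ne'
      · exact h
    rw [hA0, hB0] at hp
    simp at hp
  · have h1 : P.len j * B < s * B := mul_lt_mul_of_neg_right hsl hB
    linarith

end Pool.Agent.H34.BL.K2
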