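import Pool.Agent.H93.BL.Targets

namespace Pool.Agent.H34.BL.L7

open MeasureTheory Set Pool.Agent.H93.BL

theorem l7 : T_L7 := by
  intro ι P n
  induction n with
  | zero =>
    intro f _ w' τ hv
    refine ⟨[], τ, hv.1, ?_⟩
    exact hv.2.2.1.symm
  | succ n ih =>
    intro f hf w' τ hv
    obtain ⟨l, T, hT, hl⟩ := ih (fun m => f (m + 1)) (fun m hm => hf (m + 1) (by omega)) w' τ hv
    obtain ⟨hin, t, ht, hx, hvv⟩ := hf 0 (by omega)
    refine ⟨(f 1).1 :: l, t + T, add_pos ht.1 hT, ?_⟩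
    have hx' : (f (0 + 1)).2.1 = (f 0).2.1 + (t : ℂ) * (f 0).2.2 := hx
    have hvv' : (f (0 + 1)).2.2 = P.refl (f (0 + 1)).1 (f 0).2.2 := hvv
    have hseg : (f (0 + 1)).2.1 ∈ segment ℝ (P.p (f (0 + 1)).1) (P.q (f (0 + 1)).1) := by
      rw [hx']
      exact openSegment_subset_segment ℝ _ _ ht.2.2.1
    have e : P.affL ((f 1).1 :: l) w' = P.aff (f 1).1 (P.affL l w') := rfl
    rw [e, hl]
    show P.aff (f (0 + 1)).1 ((f (0 + 1)).2.1 + (T : ℂ) * (f (0 + 1)).2.2) = _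
    rw [P.aff_add_smul, P.aff_of_mem_segment _ _ hseg, hvv', P.refl_refl, hx']
    push_cast
    ring

end Pool.Agent.H34.BL.L7
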